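import Pool.Agent.Helper64.BT.Exact
import Pool.Agent.Helper66.BT.Orb
import Pool.Agent.Helper17.BT.RunL

/-!
# BT, piece R2: the inputs of one type with given holes
-/

set_option autoImplicit false
set_option linter.unusedSectionVars false

namespace Pool.Agent.Helper12.BT

open Finset Pool.Agent.Helper19.NF Pool.Agent.Helper74.NW Pool.Agent.Helper96.BT
open Pool.Agent.Helper74.NE (fine fine_apply)
open Pool.Agent.Helper99.NQ (pos)
open Pool.Agent.Helper96.PH (Det)
open Pool.Agent.Helper64.BT (exact_bound)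
open Pool.Agent.Helper66.BT (val_act_succ val_act average2)
open Pool.Agent.Helper17.BT (runL_unique runL_congr)

variable {n D m S : ℕ} [NeZero m] {F B W Z : Type} [Field F] [Fintype F] [AddCommGroup B] [AddCommGroup W]
  [Module F W] [Fintype W] [Fintype B] (enc : W →+ (Fin D × Fin m → B))

theorem mem_free' {C : Type} [Fintype C] {c : List C} {z : C} : z ∈ free c ↔ z ∉ c := by
  classical
  unfold free
  rw [mem_filter]
  exact and_iff_right (mem_univ _)

theorem free_append' {C : Type} [Fintype C] [DecidableEq C] (c c' : List C) :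
    free (c ++ c') = free c ∩ free c' := by
  ext z
  rw [mem_inter, mem_free', mem_free', mem_free', List.mem_append, not_or]

/-- The symbols which are not changed. -/
theorem act_congr' (g : Fin D → Equiv.Perm (Fin n)) (x0 : Fin n × Fin m → B) (i : ℕ) (I : B × W → F)
    (x y : Ch n m F W) (z : B × W)
    (hxy : ∀ p, val (fine g) x0 (tab enc I) i p = z.1 → x p z.2 = y p z.2) :
    act enc g x0 i I x z = act enc g x0 i I y z := by
  classical
  unfold act mv
  rw [Pi.add_apply, Pi.add_apply]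
  congr 1
  refine sum_congr rfl fun c _ => ?_
  split_ifs with h
  · exact hxy c h.symm
  · rfl

/-- The bound for one orbit. -/
theorem orbit_inH (hE : Mds enc (4 * D)) (P : NProg (B × W) F Z S) (hP : Det P) (g : Fin D → Equiv.Perm (Fin n))
    (x0 : Fin n × Fin m → B) (h e T i : ℕ) (L1 L2 : List (Fin S × ℕ × Fin S)) (A : Finset (Fin n))
    (h1 h2 : Fin n → Fin D × Fin m) (hh : 0 < h) (r : ℝ) (hr : 0 < r)
    (hrT : (T : ℝ) ≤ (1 - r) * Fintype.card (B × W))
    (hrh : (m * h + e * Fintype.card W : ℝ) ≤ m * Fintype.card W * r / 2)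
    (I : B × W → F) (hI : CF (fine g) x0 i (tab enc I)) :
    (Nat.card {x : Ch n m F W // InH P enc g x0 h e T i L1 L2 A h1 h2 (act enc g x0 i I x)} : ℝ) ≤
      (1 / ((h : ℝ) / Fintype.card W)) ^ (2 * A.card) * (4 * (m + 2) / (m * r) ^ 2) ^ A.card *
        Nat.card (Ch n m F W) := by
  classical
  set cell : Fin n × Fin m → B := val (fine g) x0 (tab enc I) i with hcell
  set t0 : Fin n × Fin m → B := val (fine g) x0 (tab enc I) (i + 1) with ht0
  let E : Finset (Ch n m F W) := univ.filter fun x => InH P enc g x0 h e T i L1 L2 A h1 h2 (act enc g x0 i I x)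
  let E1 : Finset (Ch n m F W) := univ.filter fun x => ∃ c, RunL P (act enc g x0 i I x) L1 c
  let E2 : Finset (Ch n m F W) := univ.filter fun x => ∃ c, RunL P (act enc g x0 i I x) L2 c
  have hE0 : ∀ x, x ∈ E ↔ InH P enc g x0 h e T i L1 L2 A h1 h2 (act enc g x0 i I x) := fun x => by
    show x ∈ univ.filter _ ↔ _
    rw [mem_filter]
    exact and_iff_right (mem_univ _)
  have hE1 : ∀ x, x ∈ E1 ↔ ∃ c, RunL P (act enc g x0 i I x) L1 c := fun x => by
    show x ∈ univ.filter _ ↔ _
    rw [mem_filter]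
    exact and_iff_right (mem_univ _)
  have hE2 : ∀ x, x ∈ E2 ↔ ∃ c, RunL P (act enc g x0 i I x) L2 c := fun x => by
    show x ∈ univ.filter _ ↔ _
    rw [mem_filter]
    exact and_iff_right (mem_univ _)
  have hw1 : ∀ x, ∃ c : List (B × W), x ∈ E1 → RunL P (act enc g x0 i I x) L1 c := by
    intro x
    by_cases hx : x ∈ E1
    · obtain ⟨c, hc⟩ := (hE1 x).1 hx
      exact ⟨c, fun _ => hc⟩
    · exact ⟨[], fun h => absurd h hx⟩
  have hw2 : ∀ x, ∃ c : List (B × W), x ∈ E2 → RunL P (act enc g x0 i I x) L2 c := by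
    intro x
    by_cases hx : x ∈ E2
    · obtain ⟨c, hc⟩ := (hE2 x).1 hx
      exact ⟨c, fun _ => hc⟩
    · exact ⟨[], fun h => absurd h hx⟩
  choose c1 hc1 using hw1
  choose c2 hc2 using hw2
  -- the runs of the elements of `E`
  have hrun : ∀ x ∈ E, x ∈ E1 ∧ x ∈ E2 ∧
      Fintype.card (B × W) ≤ (free (c1 x) ∩ free (c2 x)).card + T ∧
      (∀ u ∈ A, (univ.filter (fun t =>
        h ≤ gap (free (c1 x) ∩ free (c2 x)) (t0 (u, t) + lam enc g x (u, t)))).card ≤ e) ∧
      (∀ u ∈ A, h ≤ gap (free (c1 x)) (cell (pos g h1 u))) ∧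
      (∀ u ∈ A, h ≤ gap (free (c2 x)) (cell (pos g h2 u))) := by
    intro x hx
    obtain ⟨d1, d2, r1, r2, q1, q2, q3, q4⟩ := ((hE0 x).1 hx).run
    have m1 : x ∈ E1 := (hE1 x).2 ⟨d1, r1⟩
    have m2 : x ∈ E2 := (hE2 x).2 ⟨d2, r2⟩
    have u1 : d1 = c1 x := runL_unique hP r1 (hc1 x m1)
    have u2 : d2 = c2 x := runL_unique hP r2 (hc2 x m2)
    subst u1 u2
    rw [free_append'] at q1 q2
    refine ⟨m1, m2, q1, ?_, ?_, ?_⟩
    · intro u hu
      have h3 := q2 u hu
      unfold full at h3
      rw [mem_filter] at h3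
      refine le_trans (le_of_eq ?_) h3.2
      congr 1
      refine filter_congr fun t _ => ?_
      rw [val_act_succ enc hI x (u, t)]
    · intro u hu
      have h3 := q3 u hu
      rw [val_act hI x le_rfl] at h3
      exact h3
    · intro u hu
      have h3 := q4 u hu
      rw [val_act hI x le_rfl] at h3
      exact h3
  have hcong : ∀ (x y : Ch n m F W) (c : List (B × W)),
      (∀ p l, y p l ≠ x p l → l ∈ left cell (free c) p) →
      ∀ z ∈ c, act enc g x0 i I y z = act enc g x0 i I x z := by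
    intro x y c hy z hz
    refine act_congr' enc g x0 i I y x z fun q hq => ?_
    by_contra hne
    have h3 := hy q z.2 hne
    unfold left at h3
    rw [mem_filter] at h3
    have h4 := h3.2
    rw [hcell, hq, mem_free'] at h4
    exact h4 hz
  have hcard : Nat.card {x : Ch n m F W // InH P enc g x0 h e T i L1 L2 A h1 h2 (act enc g x0 i I x)} = E.card := by
    rw [Nat.card_eq_fintype_card, Fintype.card_subtype]
  rw [hcard]
  refine exact_bound enc hE g h1 h2 cell t0 h e T E E1 E2 (fun x => free (c1 x)) (fun x => free (c2 x))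
    (fun x hx => (hrun x hx).1) (fun x hx => (hrun x hx).2.1) ?_ ?_ A ?_ ?_ ?_ ?_ hh r hr hrT hrh
  · intro x hx x' hx'
    have r' : RunL P (act enc g x0 i I x') L1 (c1 x) := runL_congr (hc1 x hx) (hcong x x' (c1 x) hx')
    have m' : x' ∈ E1 := (hE1 x').2 ⟨c1 x, r'⟩
    refine ⟨m', ?_⟩
    have := runL_unique hP (hc1 x' m') r'
    show free (c1 x') = free (c1 x)
    rw [this]
  · intro x hx x' hx'
    have r' : RunL P (act enc g x0 i I x') L2 (c2 x) := runL_congr (hc2 x hx) (hcong x x' (c2 x) hx')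
    have m' : x' ∈ E2 := (hE2 x').2 ⟨c2 x, r'⟩
    refine ⟨m', ?_⟩
    have := runL_unique hP (hc2 x' m') r'
    show free (c2 x') = free (c2 x)
    rw [this]
  · intro x hx
    exact (hrun x hx).2.2.1
  · intro x hx u hu
    exact (hrun x hx).2.2.2.1 u hu
  · intro x hx u hu
    refine ((hrun x hx).2.2.2.2.1 u hu).trans (le_of_eq ?_)
    rfl
  · intro x hx u hu
    refine ((hrun x hx).2.2.2.2.2 u hu).trans (le_of_eq ?_)
    rfl

/-- R2: the inputs of one type with given holes. -/
theorem card_inH (hE : Mds enc (4 * D)) (P : NProg (B × W) F Z S) (hP : Det P) (g : Fin D → Equiv.Perm (Fin n))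
    (x0 : Fin n × Fin m → B) (h e T i : ℕ) (L1 L2 : List (Fin S × ℕ × Fin S)) (A : Finset (Fin n))
    (h1 h2 : Fin n → Fin D × Fin m) (hh : 0 < h) (r : ℝ) (hr : 0 < r)
    (hrT : (T : ℝ) ≤ (1 - r) * Fintype.card (B × W))
    (hrh : (m * h + e * Fintype.card W : ℝ) ≤ m * Fintype.card W * r / 2) :
    (Nat.card {I // InH P enc g x0 h e T i L1 L2 A h1 h2 I} : ℝ) ≤
      (1 / ((h : ℝ) / Fintype.card W)) ^ (2 * A.card) * (4 * (m + 2) / (m * r) ^ 2) ^ A.card *
        Nat.card (B × W → F) := by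
  have h3 := average2 enc g x0 i (fun I => InH P enc g x0 h e T i L1 L2 A h1 h2 I) (fun _ => False)
    (fun I hI => hI.cf) (fun I hI => hI.elim) 1
    ((1 / ((h : ℝ) / Fintype.card W)) ^ (2 * A.card) * (4 * (m + 2) / (m * r) ^ 2) ^ A.card) (by positivity)
    (fun I hI => by
      refine (orbit_inH enc hE P hP g x0 h e T i L1 L2 A h1 h2 hh r hr hrT hrh I hI).trans ?_
      refine le_add_of_nonneg_left (by positivity))
  refine h3.trans (le_of_eq ?_)
  have h4 : Nat.card {I : B × W → F // False} = 0 := by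
    have : IsEmpty {I : B × W → F // False} := ⟨fun I => I.2⟩
    exact Nat.card_of_isEmpty
  rw [h4, Nat.cast_zero, zero_div, zero_add]

end Pool.Agent.Helper12.BT
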